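import Pool.Agent.Y201.LI.Stm2

set_option autoImplicit false

/-! # Partial derivatives without common complex zero have none over any field containing the complex numbers -/

namespace Pool.Agent.Y394.LI

open MvPolynomial Pool.Agent.Y201.LI

theorem bpf : S_BPF := by
  intro r F hF d _ κ _ φ z _ hz
  set I : Ideal (MvPolynomial (Fin r) ℂ) := Ideal.span (Set.range fun i => pderiv i F) with hI0
  have hrad : ∀ j, (X j : MvPolynomial (Fin r) ℂ) ∈ I.radical := by
    intro j
    rw [← MvPolynomial.vanishingIdeal_zeroLocus_eq_radical (K := ℂ)]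
    intro x hx
    have h0 : x = 0 := hF x (fun i => by
      have h1 := hx (pderiv i F) (Ideal.subset_span ⟨i, rfl⟩)
      rwa [aeval_eq_eval] at h1)
    rw [h0]
    simp
  have hI : ∀ p ∈ I, eval₂ φ z p = 0 := by
    intro p hp
    have h1 : I ≤ RingHom.ker (eval₂Hom φ z) := Ideal.span_le.mpr (by
      rintro _ ⟨i, rfl⟩
      exact hz i)
    exact h1 hp
  funext j
  obtain ⟨n, hn⟩ := hrad j
  have h2 := hI _ hn
  rw [eval₂_pow, eval₂_X] at h2
  exact eq_zero_of_pow_eq_zero h2

end Pool.Agent.Y394.LI
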